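import Pool.Agent.Q181.FL.Defs

/-!
# Countable diagonalisations
-/

set_option autoImplicit false

open Set

namespace Pool.Agent.Q181.FL

/-- pick a point of an infinite set outside a finite set -/
lemma exists_out {X : Set ℕ} (hX : X.Infinite) (T : Finset ℕ) : ∃ x ∈ X, x ∉ T := by
  obtain ⟨x, hx, hxT⟩ := hX.exists_notMem_finset T
  exact ⟨x, hx, hxT⟩

/-- if `F n` are pairwise disjoint finite sets, then for every finite set `T` and every finite set
`P` of indices there is an index outside `P` with `F m` disjoint from `T`. -/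
lemma exists_idx (F : ℕ → Finset ℕ) (hF : ∀ m n, m ≠ n → Disjoint (F m) (F n)) (T P : Finset ℕ) :
    ∃ m, m ∉ P ∧ Disjoint (F m) T := by
  classical
  by_contra hcon
  push Not at hcon
  -- every index outside P meets T; choose the point
  have h1 : ∀ m, m ∉ P → ∃ t, t ∈ T ∧ t ∈ F m := by
    intro m hm
    have := hcon m hm
    rw [Finset.not_disjoint_iff] at this
    obtain ⟨t, ht1, ht2⟩ := this
    exact ⟨t, ht2, ht1⟩
  choose! g hg using h1
  have hinf : ((P : Set ℕ)ᶜ).Infinite := P.finite_toSet.infinite_compl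
  have hmaps : Set.MapsTo g ((P : Set ℕ)ᶜ) (T : Set ℕ) := fun m hm => (hg m (by simpa using hm)).1
  obtain ⟨a, ha, b, hb, hab, he⟩ := hinf.exists_ne_map_eq_of_mapsTo hmaps T.finite_toSet
  have h2 := (hg a (by simpa using ha)).2
  have h3 := (hg b (by simpa using hb)).2
  rw [he] at h2
  exact Finset.disjoint_left.1 (hF a b hab) h2 h3

/-- The absorption lemma. -/
lemma absorb (C : ℕ → Set ℕ) (hC : Monotone C) (X : ℕ → Set ℕ)
    (hX : ∀ j n, (X j \ C n).Infinite) (F : ℕ → Finset ℕ)
    (hF : ∀ m n, m ≠ n → Disjoint (F m) (F n)) :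
    ∃ B : Set ℕ, (∀ n, (C n \ B).Finite) ∧ (∃ M : Set ℕ, M.Infinite ∧ ∀ m ∈ M, (F m : Set ℕ) ⊆ B) ∧
      ∀ j, (X j \ B).Infinite := by
  classical
  obtain ⟨f, hf1, hf2⟩ := exists_seq_of_forall_finset_exists
    (α := ℕ × Finset ℕ × ℕ)
    (fun p => (∀ j ≤ p.1, ∃ x ∈ p.2.1, x ∈ X j) ∧ (∀ x ∈ p.2.1, x ∉ C p.1) ∧
      Disjoint p.2.1 (F p.2.2))
    (fun p q => p.1 < q.1 ∧ Disjoint p.2.1 q.2.1 ∧ p.2.2 ≠ q.2.2 ∧ Disjoint q.2.1 (F p.2.2) ∧
      Disjoint p.2.1 (F q.2.2)) (by
    intro s hs
    obtain ⟨n, hn⟩ : ∃ n, ∀ p ∈ s, p.1 < n := by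
      refine ⟨s.sup (fun p => p.1) + 1, fun p hp => ?_⟩
      have := Finset.le_sup (f := fun p : ℕ × Finset ℕ × ℕ => p.1) hp
      exact Nat.lt_succ_of_le this
    set T : Finset ℕ := s.biUnion (fun p => p.2.1 ∪ F p.2.2) with hT
    have hch : ∀ j, ∃ x, x ∈ X j \ C n ∧ x ∉ T := fun j => by
      obtain ⟨x, hx, hxT⟩ := exists_out (hX j n) T
      exact ⟨x, hx, hxT⟩
    choose x hx hxT using hch
    set R : Finset ℕ := (Finset.range (n + 1)).image x with hR
    obtain ⟨m, hm1, hm2⟩ := exists_idx F hF (T ∪ R) (s.image (fun p => p.2.2))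
    refine ⟨(n, R, m), ⟨?_, ?_, ?_⟩, ?_⟩
    · intro j hj
      exact ⟨x j, Finset.mem_image.2 ⟨j, Finset.mem_range.2 (Nat.lt_succ_of_le hj), rfl⟩, (hx j).1⟩
    · intro y hy
      obtain ⟨j, _, rfl⟩ := Finset.mem_image.1 hy
      exact (hx j).2
    · exact (hm2.mono_right Finset.subset_union_right).symm
    · intro p hp
      have hRT : Disjoint R T := by
        rw [Finset.disjoint_left]
        intro y hy
        obtain ⟨j, _, rfl⟩ := Finset.mem_image.1 hy
        exact hxT j
      have hpT : p.2.1 ∪ F p.2.2 ⊆ T := Finset.subset_biUnion_of_mem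
        (fun p : ℕ × Finset ℕ × ℕ => p.2.1 ∪ F p.2.2) hp
      refine ⟨hn p hp, ?_, ?_, ?_, ?_⟩
      · exact (hRT.mono_right (Finset.subset_union_left.trans hpT)).symm
      · intro he
        exact hm1 (Finset.mem_image.2 ⟨p, hp, he⟩)
      · exact hRT.mono_right (Finset.subset_union_right.trans hpT)
      · exact (hm2.mono_right ((Finset.subset_union_left.trans hpT).trans
          Finset.subset_union_left)).symm)
  -- the reserved points and the set
  set R : Set ℕ := {x | ∃ i, x ∈ (f i).2.1} with hR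
  refine ⟨((⋃ n, C n) \ R) ∪ ⋃ i, (F (f i).2.2 : Set ℕ), ?_, ?_, ?_⟩
  · intro n
    have hsub : C n \ (((⋃ n, C n) \ R) ∪ ⋃ i, (F (f i).2.2 : Set ℕ)) ⊆
        ⋃ i ∈ Finset.range n, ((f i).2.1 : Set ℕ) := by
      rintro x ⟨hx1, hx2⟩
      have hxR : x ∈ R := by
        by_contra hxR
        exact hx2 (Or.inl ⟨mem_iUnion.2 ⟨n, hx1⟩, hxR⟩)
      obtain ⟨i, hi⟩ := hxR
      have h3 := (hf1 i).2.1 x hi
      have hlt : (f i).1 < n := by
        by_contra hge
        exact h3 (hC (not_lt.1 hge) hx1)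
      have hmono : StrictMono (fun i => (f i).1) := by
        refine strictMono_nat_of_lt_succ fun i => ?_
        exact (hf2 i (i + 1) (Nat.lt_succ_self i)).1
      have : i ≤ (f i).1 := hmono.id_le i
      simp only [mem_iUnion, Finset.mem_range, Finset.mem_coe]
      exact ⟨i, by omega, hi⟩
    refine Set.Finite.subset ?_ hsub
    exact Set.Finite.biUnion (Finset.finite_toSet _) (fun i _ => Finset.finite_toSet _)
  · refine ⟨Set.range (fun i => (f i).2.2), ?_, ?_⟩
    · refine Set.infinite_range_of_injective ?_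
      intro a b hab
      rcases lt_trichotomy a b with h | h | h
      · exact absurd hab (hf2 a b h).2.2.1
      · exact h
      · exact absurd hab.symm (hf2 b a h).2.2.1
    · rintro _ ⟨i, rfl⟩
      exact (Set.subset_iUnion (fun i => (F (f i).2.2 : Set ℕ)) i).trans subset_union_right
  · intro j
    -- a point of X j in the i-th reserved set for all i with f i .1 ≥ j
    have hmono : StrictMono (fun i => (f i).1) := by
      refine strictMono_nat_of_lt_succ fun i => ?_
      exact (hf2 i (i + 1) (Nat.lt_succ_self i)).1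
    have h1 : ∀ i, ∃ x, x ∈ (f (i + j)).2.1 ∧ x ∈ X j := by
      intro i
      have : j ≤ (f (i + j)).1 := le_trans (Nat.le_add_left j i) (hmono.id_le (i + j))
      obtain ⟨x, hx, hx2⟩ := (hf1 (i + j)).1 j this
      exact ⟨x, hx, hx2⟩
    choose x hx hx2 using h1
    have hinj : Function.Injective x := by
      have aux : ∀ a b, a < b → x a ≠ x b := by
        intro a b hab he
        have := (hf2 (a + j) (b + j) (by omega)).2.1
        rw [Finset.disjoint_left] at this
        exact this (hx a) (he ▸ hx b)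
      intro a b hab
      rcases lt_trichotomy a b with h | h | h
      · exact absurd hab (aux a b h)
      · exact h
      · exact absurd hab.symm (aux b a h)
    refine (Set.infinite_range_of_injective hinj).mono ?_
    rintro _ ⟨i, rfl⟩
    refine ⟨hx2 i, ?_⟩
    rintro (⟨_, hn⟩ | hn)
    · exact hn ⟨_, hx i⟩
    · obtain ⟨l, hl⟩ := mem_iUnion.1 hn
      have hd : Disjoint (f (i + j)).2.1 (F (f l).2.2) := by
        rcases lt_trichotomy (i + j) l with h | h | h
        · exact (hf2 _ _ h).2.2.2.2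
        · rw [← h]; exact (hf1 _).2.2
        · exact (hf2 _ _ h).2.2.2.1
      exact Finset.disjoint_left.1 hd (hx i) hl

/-- Adding a new almost disjoint set. -/
lemma newSet (B : Set ℕ) (Y : ℕ → Set ℕ) (hY : ∀ n, ((B ∪ ⋃ k ∈ Finset.range n, Y k)ᶜ).Infinite) :
    ∃ A : Set ℕ, A.Infinite ∧ Disjoint A B ∧ (∀ n, (A ∩ Y n).Finite) ∧
      ∀ n, ((B ∪ A ∪ ⋃ k ∈ Finset.range n, Y k)ᶜ).Infinite := by
  classical
  obtain ⟨f, hf1, hf2⟩ := exists_seq_of_forall_finset_exists
    (α := ℕ × ℕ × ℕ)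
    (fun p => p.2.1 ∉ (B ∪ ⋃ k ∈ Finset.range p.1, Y k) ∧
      p.2.2 ∉ (B ∪ ⋃ k ∈ Finset.range p.1, Y k) ∧ p.2.1 ≠ p.2.2)
    (fun p q => p.1 < q.1 ∧ p.2.1 ≠ q.2.1 ∧ p.2.1 ≠ q.2.2 ∧ p.2.2 ≠ q.2.1 ∧ p.2.2 ≠ q.2.2) (by
    intro s hs
    obtain ⟨n, hn⟩ : ∃ n, ∀ p ∈ s, p.1 < n := by
      refine ⟨s.sup (fun p => p.1) + 1, fun p hp => ?_⟩
      have := Finset.le_sup (f := fun p : ℕ × ℕ × ℕ => p.1) hp
      exact Nat.lt_succ_of_le this
    set T : Finset ℕ := s.biUnion (fun p => {p.2.1, p.2.2}) with hT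
    obtain ⟨a, ha, haT⟩ := exists_out (hY n) T
    obtain ⟨b, hb, hbT⟩ := exists_out (hY n) (insert a T)
    refine ⟨(n, a, b), ⟨ha, hb, ?_⟩, ?_⟩
    · intro he
      apply hbT
      simp only at he
      simp [he]
    · intro p hp
      have h1 : p.2.1 ∈ T := Finset.mem_biUnion.2 ⟨p, hp, by simp⟩
      have h2 : p.2.2 ∈ T := Finset.mem_biUnion.2 ⟨p, hp, by simp⟩
      refine ⟨hn p hp, ?_, ?_, ?_, ?_⟩
      · intro he; simp only at he; exact haT (he ▸ h1)
      · intro he; simp only at he; exact hbT (Finset.mem_insert_of_mem (he ▸ h1))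
      · intro he; simp only at he; exact haT (he ▸ h2)
      · intro he; simp only at he; exact hbT (Finset.mem_insert_of_mem (he ▸ h2)))
  have hmono : StrictMono (fun i => (f i).1) := by
    refine strictMono_nat_of_lt_succ fun i => ?_
    exact (hf2 i (i + 1) (Nat.lt_succ_self i)).1
  have hinj1 : Function.Injective (fun i => (f i).2.1) := by
    intro a b hab
    rcases lt_trichotomy a b with h | h | h
    · exact absurd hab (hf2 a b h).2.1
    · exact h
    · exact absurd hab.symm (hf2 b a h).2.1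
  have hinj2 : Function.Injective (fun i => (f i).2.2) := by
    intro a b hab
    rcases lt_trichotomy a b with h | h | h
    · exact absurd hab (hf2 a b h).2.2.2.2
    · exact h
    · exact absurd hab.symm (hf2 b a h).2.2.2.2
  refine ⟨Set.range (fun i => (f i).2.1), Set.infinite_range_of_injective hinj1, ?_, ?_, ?_⟩
  · rw [Set.disjoint_left]
    rintro _ ⟨i, rfl⟩ hB
    exact (hf1 i).1 (Or.inl hB)
  · intro n
    have hsub : Set.range (fun i => (f i).2.1) ∩ Y n ⊆
        (fun i => (f i).2.1) '' (Finset.range (n + 1) : Set ℕ) := by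
      rintro _ ⟨⟨i, rfl⟩, hi⟩
      refine ⟨i, ?_, rfl⟩
      by_contra hcon
      have hge : n < i := by simpa using hcon
      have : i ≤ (f i).1 := hmono.id_le i
      apply (hf1 i).1
      right
      simp only [mem_iUnion, Finset.mem_range]
      exact ⟨n, by omega, hi⟩
    exact ((Finset.finite_toSet _).image _).subset hsub
  · intro n
    have hinj3 : Function.Injective (fun i => (f (i + n)).2.2) := by
      intro a b hab
      have := hinj2 hab
      omega
    refine (Set.infinite_range_of_injective hinj3).mono ?_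
    rintro _ ⟨i, rfl⟩
    have hge : n ≤ (f (i + n)).1 := le_trans (Nat.le_add_left n i) (hmono.id_le (i + n))
    rintro ((hB | ⟨l, hl⟩) | hY')
    · exact (hf1 (i + n)).2.1 (Or.inl hB)
    · simp only at hl
      rcases lt_trichotomy l (i + n) with h | h | h
      · exact (hf2 _ _ h).2.2.1 hl
      · subst h
        exact (hf1 _).2.2 hl
      · exact (hf2 _ _ h).2.2.2.1 hl.symm
    · simp only [mem_iUnion, Finset.mem_range] at hY'
      obtain ⟨k, hk, hk2⟩ := hY'
      apply (hf1 (i + n)).2.1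
      right
      simp only [mem_iUnion, Finset.mem_range]
      exact ⟨k, by omega, hk2⟩

end Pool.Agent.Q181.FL
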