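import Mathlib

/-!
# Free filters on the natural numbers: poor and conglomerated filters, statistical measures
-/

set_option autoImplicit false

open Set

namespace Pool.Agent.Q181.FL

/-- A free filter on `ℕ`: a proper filter (the empty set is not a member) which contains every
cofinite set. -/
def IsFree (F : Filter ℕ) : Prop := F.NeBot ∧ F ≤ Filter.cofinite

/-- The ideal of the filter: the complements of the members. -/
def ideal (F : Filter ℕ) : Set (Set ℕ) := {A | Aᶜ ∈ F}

/-- The grill of the filter: the sets which are not in the ideal. -/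
def grill (F : Filter ℕ) : Set (Set ℕ) := {A | A ∉ ideal F}

/-- Poor filters: every family of pairwise almost disjoint sets of the grill is countable. -/
def IsPoor (F : Filter ℕ) : Prop :=
  ∀ S : Set (Set ℕ), S ⊆ grill F → (∀ A ∈ S, ∀ B ∈ S, A ≠ B → A ∩ B ∈ ideal F) → S.Countable

/-- Conglomerated filters: there are pairwise disjoint sets `D n` of the ideal such that the union
of `D n`, `n ∈ M`, is in the grill for every infinite `M`. -/
def IsConglomerated (F : Filter ℕ) : Prop :=
  ∃ D : ℕ → Set ℕ, (∀ m n, m ≠ n → Disjoint (D m) (D n)) ∧ (∀ n, D n ∈ ideal F) ∧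
    ∀ M : Set ℕ, M.Infinite → (⋃ n ∈ M, D n) ∈ grill F

/-- Statistical measures: nonnegative finitely additive functions on all subsets of `ℕ`, of total
mass `1`, which vanish on singletons. -/
structure IsStatisticalMeasure (μ : Set ℕ → ℝ) : Prop where
  nonneg : ∀ A, 0 ≤ μ A
  add : ∀ A B, Disjoint A B → μ (A ∪ B) = μ A + μ B
  total : μ univ = 1
  singleton : ∀ k, μ {k} = 0

/-- The filter is generated by the statistical measure `μ`: its members are the sets of measure
`1`. -/
def IsGeneratedBy (F : Filter ℕ) (μ : Set ℕ → ℝ) : Prop := ∀ A : Set ℕ, A ∈ F ↔ μ A = 1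

end Pool.Agent.Q181.FL
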