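import Pool.Agent.Q181.FL.NonPoor

/-!
# A poor free filter which is not generated by a statistical measure
-/

set_option autoImplicit false

open Set Topology

namespace Pool.Agent.Q181.FL

/-- The Cantor space. -/
abbrev Can : Type := ℕ → Bool

/-- The cylinder of a finite word. -/
def cyl (σ : List Bool) : Set Can := {x | ∀ i (h : i < σ.length), x i = σ[i]}

/-- The `n`-th word; every word occurs infinitely often. -/
def word (n : ℕ) : List Bool := (Encodable.decode (α := List Bool) n.unpair.1).getD []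

/-- The `j`-th disjoint piece of the cylinder of `σ`: after `σ` there are exactly `j` zeros before
the first one. -/
def piece (σ : List Bool) (j : ℕ) : Set Can :=
  {x | x ∈ cyl σ ∧ (∀ i < j, x (σ.length + i) = false) ∧ x (σ.length + j) = true}

lemma piece_disj {σ : List Bool} {i j : ℕ} {x : Can} (hi : x ∈ piece σ i) (hj : x ∈ piece σ j) :
    i = j := by
  rcases lt_trichotomy i j with h | h | h
  · have h1 := hj.2.1 i h
    rw [hi.2.2] at h1
    exact absurd h1 (by decide)
  · exact h
  · have h1 := hi.2.1 j h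
    rw [hj.2.2] at h1
    exact absurd h1 (by decide)

open Classical in
/-- The pieces of the `n`-th cylinder, with number below `(n+1)^2`, which are met by `p`. -/
noncomputable def met (n : ℕ) (p : Finset Can) : Finset ℕ :=
  (Finset.range ((n + 1) ^ 2)).filter (fun j => ∃ x ∈ p, x ∈ piece (word n) j)

/-- The conditions: finite sets which meet at most `n+1` of the pieces of the `n`-th cylinder. -/
def Good (p : Finset Can) : Prop := ∀ n, (met n p).card ≤ n + 1

lemma met_mono {n : ℕ} {p q : Finset Can} (h : p ⊆ q) : met n p ⊆ met n q := by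
  classical
  intro j hj
  simp only [met, Finset.mem_filter] at hj ⊢
  obtain ⟨h1, x, hx, hx2⟩ := hj
  exact ⟨h1, x, h hx, hx2⟩

lemma Good.mono {p q : Finset Can} (h : p ⊆ q) (hq : Good q) : Good p :=
  fun n => (Finset.card_le_card (met_mono h)).trans (hq n)

lemma card_met_le (n : ℕ) (p : Finset Can) : (met n p).card ≤ p.card := by
  classical
  have h : ∀ j ∈ met n p, ∃ x ∈ p, x ∈ piece (word n) j := by
    intro j hj
    exact (Finset.mem_filter.1 hj).2
  choose! g hg1 hg2 using h
  refine Finset.card_le_card_of_injOn g hg1 ?_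
  intro i hi j hj hij
  have h1 := hg2 i hi
  have h2 := hg2 j hj
  rw [← hij] at h2
  exact piece_disj h1 h2

lemma good_singleton (x : Can) : Good {x} := by
  intro n
  refine (card_met_le n _).trans ?_
  simp

lemma met_union {n : ℕ} {p q : Finset Can} [DecidableEq Can] : met n (p ∪ q) = met n p ∪ met n q := by
  classical
  ext j
  simp only [met, Finset.mem_filter, Finset.mem_union]
  constructor
  · rintro ⟨h1, x, hx | hx, h2⟩
    · exact Or.inl ⟨h1, x, hx, h2⟩
    · exact Or.inr ⟨h1, x, hx, h2⟩
  · rintro (⟨h1, x, hx, h2⟩ | ⟨h1, x, hx, h2⟩)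
    · exact ⟨h1, x, Or.inl hx, h2⟩
    · exact ⟨h1, x, Or.inr hx, h2⟩

/-- The type of a condition. -/
noncomputable def typ (p : Finset Can) : ℕ × List (Finset ℕ) :=
  (p.card, (List.range (2 * p.card)).map (fun n => met n p))

lemma good_union {p q : Finset Can} [DecidableEq Can] (hp : Good p)
    (h : typ p = typ q) : Good (p ∪ q) := by
  intro n
  have hc : p.card = q.card := congrArg Prod.fst h
  by_cases hn : n < 2 * p.card
  · have h2 : (List.range (2 * p.card)).map (fun n => met n p) =
        (List.range (2 * p.card)).map (fun n => met n q) := by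
      have := congrArg Prod.snd h
      simp only [typ] at this
      rw [← hc] at this
      exact this
    have h3 := List.map_inj_left.1 h2 n (List.mem_range.2 hn)
    rw [met_union, ← h3, Finset.union_self]
    exact hp n
  · refine (card_met_le n _).trans ((Finset.card_union_le _ _).trans ?_)
    omega

/-- An independent family indexed by the Cantor space. -/
def ind (x : Can) : Set ℕ :=
  {k | ∃ (n : ℕ) (S : Finset (Fin n → Bool)), (fun i : Fin n => x i) ∈ S ∧
    k = Encodable.encode (⟨n, S⟩ : Σ n, Finset (Fin n → Bool))}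

lemma mem_ind {x : Can} {n : ℕ} {S : Finset (Fin n → Bool)} :
    Encodable.encode (⟨n, S⟩ : Σ n, Finset (Fin n → Bool)) ∈ ind x ↔ (fun i : Fin n => x i) ∈ S := by
  constructor
  · rintro ⟨m, T, hT, he⟩
    have h1 := Encodable.encode_injective he
    obtain ⟨rfl, h2⟩ := Sigma.mk.inj_iff.1 h1
    rw [eq_of_heq h2]
    exact hT
  · intro h
    exact ⟨n, S, h, rfl⟩

/-- restrictions separate finitely many points -/
lemma exists_sep (p q : Finset Can) (h : Disjoint p q) :
    ∃ N, ∀ n ≥ N, ∀ x ∈ p, ∀ y ∈ q, (fun i : Fin n => x i) ≠ (fun i : Fin n => y i) := by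
  classical
  have h1 : ∀ z : Can × Can, ∃ N, z.1 ≠ z.2 → ∀ n ≥ N,
      (fun i : Fin n => z.1 i) ≠ (fun i : Fin n => z.2 i) := by
    intro z
    by_cases hz : z.1 = z.2
    · exact ⟨0, fun h => absurd hz h⟩
    · obtain ⟨i, hi⟩ := Function.ne_iff.1 hz
      refine ⟨i + 1, fun _ n hn he => hi ?_⟩
      exact congrFun he ⟨i, by omega⟩
  choose N hN using h1
  refine ⟨(p ×ˢ q).sup N, fun n hn x hx y hy => ?_⟩
  refine hN (x, y) ?_ n ?_
  · intro he
    have he' : x = y := he
    exact Finset.disjoint_left.1 h hx (he' ▸ hy)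
  · exact le_trans (Finset.le_sup (f := N) (Finset.mk_mem_product hx hy)) hn

lemma ind_indep (p q : Finset Can) (h : Disjoint p q) :
    ((⋂ x ∈ p, ind x) \ ⋃ y ∈ q, ind y).Infinite := by
  classical
  obtain ⟨N, hN⟩ := exists_sep p q h
  let g : ℕ → ℕ := fun n => Encodable.encode
    (⟨n + N, p.image (fun x => (fun i : Fin (n + N) => x i))⟩ : Σ n, Finset (Fin n → Bool))
  have hg : Function.Injective g := by
    intro a b hab
    have h1 := Encodable.encode_injective hab
    have h2 := (Sigma.mk.inj_iff.1 h1).1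
    omega
  refine (Set.infinite_range_of_injective hg).mono ?_
  rintro _ ⟨n, rfl⟩
  constructor
  · simp only [mem_iInter]
    intro x hx
    exact mem_ind.2 (Finset.mem_image.2 ⟨x, hx, rfl⟩)
  · simp only [mem_iUnion, not_exists]
    intro y hy hmem
    have h1 := mem_ind.1 hmem
    obtain ⟨x, hx, hxy⟩ := Finset.mem_image.1 h1
    exact hN (n + N) (by omega) x hx y hy hxy

/-- The set attached to a finite subset of the Cantor space. -/
def cap (p : Finset Can) : Set ℕ := ⋂ x ∈ p, ind x

lemma cap_anti {p q : Finset Can} (h : p ⊆ q) : cap q ⊆ cap p := by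
  intro k hk
  simp only [cap, mem_iInter] at hk ⊢
  exact fun x hx => hk x (h hx)

/-- The filter generated by the cofinite sets and the complements of `cap T`, `T` not good. -/
def baseFilter : Filter ℕ where
  sets := {S | ∃ Q : Finset (Finset Can), (∀ T ∈ Q, ¬ Good T) ∧ (Sᶜ \ ⋃ T ∈ Q, cap T).Finite}
  univ_sets := ⟨∅, by simp, by simp⟩
  sets_of_superset := by
    rintro S T ⟨Q, h1, h2⟩ hST
    exact ⟨Q, h1, h2.subset (sdiff_subset_sdiff_left (compl_subset_compl.2 hST))⟩
  inter_sets := by
    classical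
    rintro S T ⟨Q, h1, h2⟩ ⟨Q', h1', h2'⟩
    refine ⟨Q ∪ Q', ?_, (h2.union h2').subset ?_⟩
    · intro U hU
      rcases Finset.mem_union.1 hU with h | h
      · exact h1 U h
      · exact h1' U h
    · rintro k ⟨hk1, hk2⟩
      simp only [mem_iUnion, Finset.mem_union, not_exists] at hk2
      rw [compl_inter] at hk1
      rcases hk1 with hk1 | hk1
      · left
        refine ⟨hk1, ?_⟩
        simp only [mem_iUnion, not_exists]
        exact fun U hU => hk2 U (Or.inl hU)
      · right
        refine ⟨hk1, ?_⟩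
        simp only [mem_iUnion, not_exists]
        exact fun U hU => hk2 U (Or.inr hU)

lemma mem_baseFilter {S : Set ℕ} : S ∈ baseFilter ↔
    ∃ Q : Finset (Finset Can), (∀ T ∈ Q, ¬ Good T) ∧ (Sᶜ \ ⋃ T ∈ Q, cap T).Finite := Iff.rfl

lemma cap_not_mem_base {p : Finset Can} (hp : Good p) : (cap p)ᶜ ∉ baseFilter := by
  classical
  rintro ⟨Q, h1, h2⟩
  rw [compl_compl] at h2
  have h3 : ∀ T ∈ Q, ∃ y ∈ T, y ∉ p := by
    intro T hT
    by_contra hcon
    push Not at hcon
    exact h1 T hT (hp.mono hcon)
  choose! y hy1 hy2 using h3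
  have hdis : Disjoint p (Q.image y) := by
    rw [Finset.disjoint_left]
    intro x hx hx2
    obtain ⟨T, hT, rfl⟩ := Finset.mem_image.1 hx2
    exact hy2 T hT hx
  refine ind_indep p (Q.image y) hdis (h2.subset ?_)
  rintro k ⟨hk1, hk2⟩
  refine ⟨hk1, ?_⟩
  simp only [mem_iUnion, not_exists, Finset.mem_image] at hk2 ⊢
  intro T hT hk
  refine hk2 (y T) ⟨T, hT, rfl⟩ ?_
  simp only [cap, mem_iInter] at hk
  exact hk _ (hy1 T hT)

/-- There is a maximal filter which is finer than the base filter and for which all `cap p`, `p`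
good, are positive. -/
lemma exists_filter : ∃ F : Filter ℕ, F ≤ baseFilter ∧ (∀ p, Good p → (cap p)ᶜ ∉ F) ∧
    ∀ S : Set ℕ, Sᶜ ∉ F → ∃ p, Good p ∧ (cap p \ S)ᶜ ∈ F := by
  classical
  let C : Set (Filter ℕ)ᵒᵈ := {F | OrderDual.ofDual F ≤ baseFilter ∧
    ∀ p, Good p → (cap p)ᶜ ∉ OrderDual.ofDual F}
  have hb : OrderDual.toDual baseFilter ∈ C := ⟨le_rfl, fun p hp => cap_not_mem_base hp⟩
  obtain ⟨m, hm1, hm2⟩ := zorn_le_nonempty₀ C (by
    intro c hc hchain y hy
    have hcne : Nonempty c := ⟨⟨y, hy⟩⟩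
    refine ⟨OrderDual.toDual (⨅ a : c, OrderDual.ofDual a.1), ⟨?_, ?_⟩, ?_⟩
    · exact (iInf_le (fun a : c => OrderDual.ofDual a.1) ⟨y, hy⟩).trans (hc hy).1
    · intro p hp hmem
      have hdir : Directed (· ≥ ·) (fun a : c => OrderDual.ofDual a.1) := by
        rintro ⟨a, ha⟩ ⟨b, hb⟩
        rcases hchain.total ha hb with h | h
        · exact ⟨⟨b, hb⟩, h, le_rfl⟩
        · exact ⟨⟨a, ha⟩, le_rfl, h⟩
      have hmem' : (cap p)ᶜ ∈ ⨅ a : c, OrderDual.ofDual a.1 := hmem
      rw [Filter.mem_iInf_of_directed hdir] at hmem'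
      obtain ⟨⟨a, ha⟩, hpa⟩ := hmem'
      exact (hc ha).2 p hp hpa
    · intro z hz
      exact iInf_le (fun a : c => OrderDual.ofDual a.1) ⟨z, hz⟩) (OrderDual.toDual baseFilter) hb
  refine ⟨OrderDual.ofDual m, hm2.prop.1, hm2.prop.2, ?_⟩
  intro S hS
  by_contra hcon
  push Not at hcon
  set F' : Filter ℕ := OrderDual.ofDual m ⊓ Filter.principal Sᶜ with hF'
  have h1 : OrderDual.toDual F' ∈ C := by
    refine ⟨(inf_le_left).trans hm2.prop.1, fun p hp hmem => ?_⟩
    have hmem' : (cap p)ᶜ ∈ F' := hmem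
    rw [hF', Filter.mem_inf_principal] at hmem'
    refine hcon p hp (Filter.mem_of_superset hmem' ?_)
    intro k hk
    simp only [mem_ofPred_eq] at hk
    rintro ⟨h3, h4⟩
    exact hk h4 h3
  have h2 : m ≤ OrderDual.toDual F' := (inf_le_left : F' ≤ OrderDual.ofDual m)
  have h3 := hm2.le_of_ge h1 h2
  have h4 : OrderDual.ofDual m ≤ F' := h3
  exact hS (h4 (Filter.mem_inf_of_right (Filter.mem_principal_self _)))

section measure

variable {μ : Set ℕ → ℝ}

lemma IsStatisticalMeasure.empty (hμ : IsStatisticalMeasure μ) : μ ∅ = 0 := by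
  have := hμ.add ∅ ∅ (disjoint_empty _)
  rw [empty_union] at this
  linarith

lemma IsStatisticalMeasure.mono (hμ : IsStatisticalMeasure μ) {A B : Set ℕ} (h : A ⊆ B) :
    μ A ≤ μ B := by
  have := hμ.add A (B \ A) disjoint_sdiff_right
  rw [union_sdiff_cancel h] at this
  linarith [hμ.nonneg (B \ A)]

lemma IsStatisticalMeasure.compl (hμ : IsStatisticalMeasure μ) (A : Set ℕ) :
    μ Aᶜ = 1 - μ A := by
  have := hμ.add A Aᶜ disjoint_compl_right
  rw [union_compl_self, hμ.total] at this
  linarith

/-- decomposition of a set along a finite-valued function -/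
lemma IsStatisticalMeasure.sum_fiber (hμ : IsStatisticalMeasure μ) {β : Type*} [DecidableEq β]
    (f : ℕ → β) (s : Finset β) (A : Set ℕ) (hA : ∀ k ∈ A, f k ∈ s) :
    μ A = ∑ b ∈ s, μ {k | k ∈ A ∧ f k = b} := by
  induction s using Finset.induction_on generalizing A with
  | empty =>
    have : A = ∅ := by
      ext k
      simp only [mem_empty_iff_false, iff_false]
      intro hk
      exact absurd (hA k hk) (Finset.notMem_empty _)
    rw [this, hμ.empty]
    simp
  | insert b s hb ih =>
    rw [Finset.sum_insert hb]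
    have h1 : A = {k | k ∈ A ∧ f k = b} ∪ {k | k ∈ A ∧ f k ≠ b} := by
      ext k
      simp only [mem_union, mem_ofPred_eq]
      tauto
    have h2 : Disjoint {k | k ∈ A ∧ f k = b} {k | k ∈ A ∧ f k ≠ b} := by
      rw [Set.disjoint_left]
      rintro k ⟨_, h3⟩ ⟨_, h4⟩
      exact h4 h3
    conv_lhs => rw [h1, hμ.add _ _ h2]
    congr 1
    rw [ih {k | k ∈ A ∧ f k ≠ b}]
    · refine Finset.sum_congr rfl fun c hc => ?_
      congr 1
      ext k
      simp only [mem_ofPred_eq]
      constructor
      · rintro ⟨⟨h5, _⟩, h6⟩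
        exact ⟨h5, h6⟩
      · rintro ⟨h5, h6⟩
        refine ⟨⟨h5, ?_⟩, h6⟩
        rintro h7
        rw [h6] at h7
        exact hb (h7 ▸ hc)
    · rintro k ⟨h5, h6⟩
      exact (Finset.mem_insert.1 (hA k h5)).resolve_left h6

/-- If every point outside a null set lies in at most `M` of the sets `E j`, `j < N`, then the sum
of the measures is at most `M`. -/
lemma IsStatisticalMeasure.sum_le (hμ : IsStatisticalMeasure μ) (N M : ℕ) (E : ℕ → Set ℕ)
    (h : ∀ T : Finset ℕ, T ⊆ Finset.range N → M < T.card → μ (⋂ j ∈ T, E j) = 0) :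
    ∑ j ∈ Finset.range N, μ (E j) ≤ M := by
  classical
  let f : ℕ → Finset ℕ := fun k => (Finset.range N).filter (fun j => k ∈ E j)
  have hf : ∀ k, f k ∈ (Finset.range N).powerset := fun k =>
    Finset.mem_powerset.2 (Finset.filter_subset _ _)
  have h1 : ∀ j ∈ Finset.range N, μ (E j) =
      ∑ T ∈ (Finset.range N).powerset, if j ∈ T then μ {k | f k = T} else 0 := by
    intro j hj
    rw [hμ.sum_fiber f _ (E j) (fun k _ => hf k)]
    refine Finset.sum_congr rfl fun T _ => ?_
    split_ifs with hjT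
    · congr 1
      ext k
      simp only [mem_ofPred_eq]
      constructor
      · exact fun h => h.2
      · intro hk
        refine ⟨?_, hk⟩
        rw [← hk] at hjT
        exact (Finset.mem_filter.1 hjT).2
    · have : {k | k ∈ E j ∧ f k = T} = ∅ := by
        ext k
        simp only [mem_ofPred_eq, mem_empty_iff_false, iff_false]
        rintro ⟨h2, h3⟩
        apply hjT
        rw [← h3]
        exact Finset.mem_filter.2 ⟨hj, h2⟩
      rw [this, hμ.empty]
  have h2 : (1 : ℝ) = ∑ T ∈ (Finset.range N).powerset, μ {k | f k = T} := by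
    have := hμ.sum_fiber f _ univ (fun k _ => hf k)
    rw [hμ.total] at this
    rw [this]
    refine Finset.sum_congr rfl fun T _ => ?_
    congr 1
    ext k
    simp
  rw [Finset.sum_congr rfl h1, Finset.sum_comm]
  calc ∑ T ∈ (Finset.range N).powerset, ∑ j ∈ Finset.range N, (if j ∈ T then μ {k | f k = T} else 0)
      ≤ ∑ T ∈ (Finset.range N).powerset, (M : ℝ) * μ {k | f k = T} := by
        refine Finset.sum_le_sum fun T hT => ?_
        rw [← Finset.sum_filter, Finset.sum_const, nsmul_eq_mul]
        have hTN := Finset.mem_powerset.1 hT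
        have h3 : (Finset.range N).filter (fun j => j ∈ T) = T := by
          ext j
          simp only [Finset.mem_filter]
          exact ⟨fun h => h.2, fun h => ⟨hTN h, h⟩⟩
        rw [h3]
        by_cases hc : M < T.card
        · have h4 : μ {k | f k = T} = 0 := by
            refine le_antisymm ?_ (hμ.nonneg _)
            rw [← h T hTN hc]
            refine hμ.mono ?_
            intro k hk
            simp only [mem_ofPred_eq] at hk
            simp only [mem_iInter]
            intro j hj
            rw [← hk] at hj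
            exact (Finset.mem_filter.1 hj).2
          rw [h4]
          simp
        · have : (T.card : ℝ) ≤ M := by exact_mod_cast not_lt.1 hc
          exact mul_le_mul_of_nonneg_right this (hμ.nonneg _)
    _ = M := by rw [← Finset.mul_sum, ← h2, mul_one]

end measure

lemma isOpen_cyl (σ : List Bool) : IsOpen (cyl σ) := by
  have : cyl σ = ⋂ i : Fin σ.length, {x : Can | x i = σ[i]} := by
    ext x
    simp only [cyl, mem_ofPred_eq, mem_iInter]
    exact ⟨fun h i => h i i.2, fun h i hi => h ⟨i, hi⟩⟩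
  rw [this]
  refine isOpen_iInter_of_finite fun i => ?_
  exact IsOpen.preimage (f := fun x : Can => x (i : ℕ)) (continuous_apply (i : ℕ))
    (isOpen_discrete ({σ[i]} : Set Bool))

lemma isOpen_piece (σ : List Bool) (j : ℕ) : IsOpen (piece σ j) := by
  have : piece σ j = cyl σ ∩ ((⋂ i : Fin j, {x : Can | x (σ.length + i) = false}) ∩
      {x : Can | x (σ.length + j) = true}) := by
    ext x
    simp only [piece, mem_ofPred_eq, mem_inter_iff, mem_iInter]
    constructor
    · rintro ⟨h1, h2, h3⟩
      exact ⟨h1, fun i => h2 i i.2, h3⟩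
    · rintro ⟨h1, h2, h3⟩
      exact ⟨h1, fun i hi => h2 ⟨i, hi⟩, h3⟩
  rw [this]
  refine (isOpen_cyl σ).inter (IsOpen.inter (isOpen_iInter_of_finite fun i => ?_) ?_)
  · exact IsOpen.preimage (f := fun x : Can => x (σ.length + i)) (continuous_apply _)
      (isOpen_discrete ({false} : Set Bool))
  · exact IsOpen.preimage (f := fun x : Can => x (σ.length + j)) (continuous_apply _)
      (isOpen_discrete ({true} : Set Bool))

lemma piece_nonempty (σ : List Bool) (j : ℕ) : (piece σ j).Nonempty := by
  refine ⟨fun i => if h : i < σ.length then σ[i] else (i == σ.length + j), ?_, ?_, ?_⟩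
  · intro i hi
    simp [hi]
  · intro i hi
    have h1 : ¬ (σ.length + i < σ.length) := by omega
    simp only [h1, dite_false]
    rw [beq_eq_false_iff_ne]
    omega
  · have h1 : ¬ (σ.length + j < σ.length) := by omega
    simp [h1]

/-- Every nonempty open set contains a cylinder. -/
lemma exists_cyl {U : Set Can} (hU : IsOpen U) (hne : U.Nonempty) : ∃ σ, cyl σ ⊆ U := by
  obtain ⟨x, hx⟩ := hne
  rw [isOpen_pi_iff] at hU
  obtain ⟨I, u, h1, h2⟩ := hU x hx
  refine ⟨List.ofFn (fun i : Fin (I.sup id + 1) => x i), ?_⟩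
  intro y hy
  apply h2
  intro i hi
  have hlt : i < I.sup id + 1 := Nat.lt_succ_of_le (Finset.le_sup (f := id) hi)
  have h3 := hy i (by simpa using hlt)
  rw [h3]
  simp only [List.getElem_ofFn]
  exact (h1 i hi).2

lemma exists_word (σ : List Bool) (N : ℕ) : ∃ n ≥ N, word n = σ := by
  refine ⟨Nat.pair (Encodable.encode σ) N, Nat.right_le_pair _ _, ?_⟩
  simp [word]

/-- **Main theorem.** There is a poor free filter which is not generated by a statistical
measure. -/
theorem exists_poor_nonmeasure : ∃ F : Filter ℕ, IsFree F ∧ IsPoor F ∧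
    ∀ μ : Set ℕ → ℝ, IsStatisticalMeasure μ → ¬ IsGeneratedBy F μ := by
  classical
  obtain ⟨F, hF1, hF2, hF3⟩ := exists_filter
  have hgood_empty : Good (∅ : Finset Can) := fun n => (card_met_le n _).trans (by simp)
  refine ⟨F, ⟨⟨?_⟩, ?_⟩, ?_, ?_⟩
  · intro h
    refine hF2 ∅ hgood_empty ?_
    rw [h]
    exact Filter.mem_bot
  · refine hF1.trans ?_
    intro S hS
    rw [Filter.mem_cofinite] at hS
    exact mem_baseFilter.2 ⟨∅, by simp, by simpa using hS⟩
  · intro S hS1 hS2
    have h1 : ∀ A ∈ S, ∃ p, Good p ∧ (cap p \ A)ᶜ ∈ F := by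
      intro A hA
      refine hF3 A ?_
      exact hS1 hA
    choose! p hp1 hp2 using h1
    have hinj : InjOn (fun A => typ (p A)) S := by
      intro A hA B hB hAB
      by_contra hne
      have h2 := hS2 A hA B hB hne
      have h3 := good_union (hp1 A hA) hAB
      refine hF2 _ h3 ?_
      rw [ideal, mem_ofPred_eq] at h2
      refine Filter.mem_of_superset
        (Filter.inter_mem (Filter.inter_mem (hp2 A hA) (hp2 B hB)) h2) ?_
      rintro k ⟨⟨h4, h5⟩, h6⟩ h7
      have h8 : k ∈ cap (p A) := cap_anti Finset.subset_union_left h7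
      have h9 : k ∈ cap (p B) := cap_anti Finset.subset_union_right h7
      have h10 : k ∈ A := by
        by_contra h
        exact h4 ⟨h8, h⟩
      have h11 : k ∈ B := by
        by_contra h
        exact h5 ⟨h9, h⟩
      exact h6 ⟨h10, h11⟩
    exact Set.countable_of_injective_of_countable_image hinj (Set.to_countable _)
  · intro μ hμ hgen
    have hpos : ∀ x : Can, 0 < μ (ind x) := by
      intro x
      have h1 := hF2 {x} (good_singleton x)
      rw [hgen, hμ.compl] at h1
      have h2 : cap {x} = ind x := by simp [cap]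
      rw [h2] at h1
      refine lt_of_le_of_ne (hμ.nonneg _) ?_
      intro h3
      apply h1
      rw [← h3]
      ring
    have hbad : ∀ T : Finset Can, ¬ Good T → μ (cap T) = 0 := by
      intro T hT
      have h1 : (cap T)ᶜ ∈ F := hF1 (mem_baseFilter.2 ⟨{T}, by simpa using hT, by simp⟩)
      rw [hgen, hμ.compl] at h1
      linarith
    -- Baire category
    let X : ℕ → Set Can := fun m => {x | 1 / ((m : ℝ) + 1) ≤ μ (ind x)}
    have hXun : (⋃ m, closure (X m)) = univ := by
      ext x
      simp only [mem_iUnion, mem_univ, iff_true]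
      obtain ⟨m, hm⟩ := exists_nat_one_div_lt (hpos x)
      exact ⟨m, subset_closure hm.le⟩
    obtain ⟨m, hm⟩ := nonempty_interior_of_iUnion_of_closed (fun m => isClosed_closure) hXun
    obtain ⟨σ, hσ⟩ := exists_cyl isOpen_interior hm
    obtain ⟨n, hn, hw⟩ := exists_word σ (m + 1)
    have hch : ∀ j, ∃ x, x ∈ X m ∧ x ∈ piece (word n) j := by
      intro j
      rw [hw]
      obtain ⟨y, hy⟩ := piece_nonempty σ j
      have h1 : y ∈ closure (X m) := interior_subset (hσ hy.1)
      rw [mem_closure_iff] at h1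
      obtain ⟨x, hx1, hx2⟩ := h1 _ (isOpen_piece σ j) hy
      exact ⟨x, hx2, hx1⟩
    choose x hx1 hx2 using hch
    have hsum := hμ.sum_le ((n + 1) ^ 2) (n + 1) (fun j => ind (x j)) (by
      intro T hT hcard
      have hb : ¬ Good (T.image x) := by
        intro hg
        have h1 := hg n
        have h2 : T ⊆ met n (T.image x) := by
          intro j hj
          exact Finset.mem_filter.2 ⟨hT hj, x j, Finset.mem_image.2 ⟨j, hj, rfl⟩, hx2 j⟩
        have h3 := Finset.card_le_card h2
        omega
      have h1 := hbad _ hb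
      refine le_antisymm ?_ (hμ.nonneg _)
      rw [← h1]
      refine hμ.mono ?_
      intro k hk
      simp only [cap, mem_iInter, Finset.mem_image] at hk ⊢
      rintro _ ⟨j, hj, rfl⟩
      exact hk j hj)
    have hlow : ((n + 1) ^ 2 : ℕ) * (1 / ((m : ℝ) + 1)) ≤
        ∑ j ∈ Finset.range ((n + 1) ^ 2), μ (ind (x j)) := by
      have := Finset.card_nsmul_le_sum (Finset.range ((n + 1) ^ 2)) (fun j => μ (ind (x j)))
        (1 / ((m : ℝ) + 1)) (fun j _ => hx1 j)
      rw [Finset.card_range, nsmul_eq_mul] at this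
      exact this
    have hmn : ((m : ℝ) + 1) ≤ n := by exact_mod_cast hn
    have h5 := hlow.trans hsum
    push_cast at h5
    have hm0 : (0 : ℝ) < (m : ℝ) + 1 := by positivity
    have h6 : ((n : ℝ) + 1) ^ 2 ≤ ((n : ℝ) + 1) * ((m : ℝ) + 1) := by
      rw [mul_one_div, div_le_iff₀ hm0] at h5
      exact h5
    have h7 : (0 : ℝ) < (n : ℝ) + 1 := by positivity
    nlinarith

/-- A poor filter is not conglomerated. -/
lemma IsPoor.not_conglomerated {F : Filter ℕ} (hF : IsPoor F) : ¬ IsConglomerated F := by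
  rintro ⟨D, hD1, hD2, hD3⟩
  have hint : ∀ x y : ℕ → Bool, x ≠ y →
      (⋃ n ∈ branch x, D n) ∩ (⋃ n ∈ branch y, D n) ∈ ideal F := by
    intro x y hxy
    have h5 : (⋃ n ∈ branch x, D n) ∩ (⋃ n ∈ branch y, D n) ⊆ ⋃ n ∈ branch x ∩ branch y, D n := by
      rintro k ⟨hk1, hk2⟩
      simp only [mem_iUnion] at hk1 hk2 ⊢
      obtain ⟨m, hm, hkm⟩ := hk1
      obtain ⟨n, hn, hkn⟩ := hk2
      by_cases h : m = n
      · subst h
        exact ⟨m, ⟨hm, hn⟩, hkm⟩
      · exact absurd hkn (Set.disjoint_left.1 (hD1 m n h) hkm)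
    rw [ideal, mem_ofPred_eq]
    have h6 : (⋂ n ∈ branch x ∩ branch y, (D n)ᶜ) ∈ F :=
      (Filter.biInter_mem (branch_inter hxy)).2 (fun n _ => hD2 n)
    refine Filter.mem_of_superset h6 ?_
    intro k hk hk2
    have h7 := h5 hk2
    simp only [mem_iUnion, mem_iInter] at h7 hk
    obtain ⟨n, hn, hkn⟩ := h7
    exact hk n hn hkn
  have hne : ∀ x : ℕ → Bool, (⋃ n ∈ branch x, D n) ∈ grill F :=
    fun x => hD3 (branch x) (branch_infinite x)
  have hinj : Function.Injective (fun x : ℕ → Bool => ⋃ n ∈ branch x, D n) := by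
    intro x y hxy
    by_contra h
    have h1 := hint x y h
    simp only at hxy
    rw [← hxy, inter_self] at h1
    exact hne x h1
  have hcount := hF (range (fun x : ℕ → Bool => ⋃ n ∈ branch x, D n)) (by
    rintro _ ⟨x, rfl⟩
    exact hne x) (by
    rintro _ ⟨x, rfl⟩ _ ⟨y, rfl⟩ hxy
    refine hint x y ?_
    rintro rfl
    exact hxy rfl)
  have h3 : ((fun x : ℕ → Bool => ⋃ n ∈ branch x, D n) '' univ).Countable := by
    rw [image_univ]; exact hcount
  have h4 := countable_of_injective_of_countable_image hinj.injOn h3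
  rw [← Cardinal.le_aleph0_iff_set_countable, Cardinal.mk_univ] at h4
  have h5 : Cardinal.mk (ℕ → Bool) = Cardinal.continuum := by simp
  rw [h5] at h4
  exact absurd Cardinal.aleph0_lt_continuum (not_lt.2 h4)

end Pool.Agent.Q181.FL
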