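import Pool.Agent.Q181.FL.Comb

/-!
# A free filter which is neither poor nor conglomerated
-/

set_option autoImplicit false

open Set Cardinal

namespace Pool.Agent.Q181.FL

/-- Well-founded recursion for relations. -/
lemma wf_rec {ι α : Type*} [LinearOrder ι] [WellFoundedLT ι] [Inhabited α]
    (R : (x : ι) → ((y : ι) → y < x → α) → α → Prop)
    (h : ∀ (x : ι) (g : ι → α), (∀ y, y < x → R y (fun z _ => g z) (g y)) →
      ∃ a, R x (fun z _ => g z) a) :
    ∃ f : ι → α, ∀ x, R x (fun z _ => f z) (f x) := by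
  classical
  set f : ι → α := (wellFounded_lt (α := ι)).fix
    (fun x g => if h : ∃ a, R x g a then h.choose else default) with hf
  have hfx : ∀ x, f x = if h : ∃ a, R x (fun z _ => f z) a then h.choose else default := by
    intro x
    rw [hf, WellFounded.fix_eq]
  refine ⟨f, fun x => ?_⟩
  induction x using WellFoundedLT.induction with
  | ind x ih =>
    have hex := h x f ih
    rw [hfx x, dif_pos hex]
    exact hex.choose_spec

/-- The relation of the recursion; `g` gives the previous pairs `(B_y, A_y)`. -/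
def Rel {ι : Type} [LinearOrder ι] (Fs : ι → ℕ → Finset ℕ) (x : ι)
    (g : (y : ι) → y < x → Set ℕ × Set ℕ) (p : Set ℕ × Set ℕ) : Prop :=
  (∀ y (hy : y < x), ((g y hy).1 \ p.1).Finite) ∧
  ((∀ m n, m ≠ n → Disjoint (Fs x m) (Fs x n)) →
    ∃ M : Set ℕ, M.Infinite ∧ ∀ m ∈ M, (Fs x m : Set ℕ) ⊆ p.1) ∧
  (∀ y (hy : y < x), ((g y hy).2 \ p.1).Infinite) ∧
  p.2.Infinite ∧ Disjoint p.2 p.1 ∧ (∀ y (hy : y < x), (p.2 ∩ (g y hy).2).Finite) ∧
  (∀ s : Finset ι, ((p.1 ∪ p.2 ∪ ⋃ y ∈ s, ⋃ (hy : y < x), (g y hy).2)ᶜ).Infinite)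

lemma diff_inf {A B C : Set ℕ} (h : (A \ B).Infinite) (h2 : (C \ B).Finite) : (A \ C).Infinite := by
  refine (h.sdiff h2).mono ?_
  rintro x ⟨⟨h3, h4⟩, h5⟩
  exact ⟨h3, fun hC => h5 ⟨hC, h4⟩⟩

lemma step {ι : Type} [LinearOrder ι] (hc : ∀ x : ι, (Iic x).Countable)
    (Fs : ι → ℕ → Finset ℕ) (x : ι) (g : ι → Set ℕ × Set ℕ)
    (hg : ∀ y, y < x → Rel Fs y (fun z _ => g z) (g y)) :
    ∃ p, Rel Fs x (fun z _ => g z) p := by
  classical
  obtain ⟨e, he⟩ := (hc x).exists_eq_range ⟨x, le_refl x⟩
  have hex : ∀ y, y ≤ x → ∃ k, e k = y := by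
    intro y hy
    have : y ∈ Iic x := hy
    rw [he] at this
    exact this
  set B' : ℕ → Set ℕ := fun n => if e n < x then (g (e n)).1 else ∅ with hB'
  set A' : ℕ → Set ℕ := fun n => if e n < x then (g (e n)).2 else ∅ with hA'
  set C : ℕ → Set ℕ := fun n => ⋃ k ∈ Finset.range n, B' k with hC
  have hCmono : Monotone C := by
    intro a b hab
    refine Set.biUnion_subset_biUnion_left ?_
    intro k hk
    exact Finset.mem_range.2 (lt_of_lt_of_le (Finset.mem_range.1 hk) hab)
  -- for finite nonempty set of indices below x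
  have key : ∀ s : Finset ι, (∀ y ∈ s, y < x) → s.Nonempty → ∃ z ∈ s, (∀ y ∈ s, y ≤ z) ∧
      ((⋃ y ∈ s, (g y).1) \ (g z).1).Finite := by
    intro s hs hne
    refine ⟨s.max' hne, s.max'_mem hne, fun y hy => s.le_max' y hy, ?_⟩
    have : (⋃ y ∈ s, (g y).1) \ (g (s.max' hne)).1 ⊆ ⋃ y ∈ s, ((g y).1 \ (g (s.max' hne)).1) := by
      rintro k ⟨hk1, hk2⟩
      simp only [mem_iUnion] at hk1 ⊢
      obtain ⟨y, hy, hk⟩ := hk1
      exact ⟨y, hy, hk, hk2⟩
    refine Set.Finite.subset ?_ this
    refine Set.Finite.biUnion (Finset.finite_toSet s) fun y hy => ?_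
    rcases lt_or_eq_of_le (s.le_max' y hy) with h | h
    · exact (hg (s.max' hne) (hs _ (s.max'_mem hne))).1 y h
    · rw [← h]; simp
  have hCsub : ∀ n (s : Finset ι), (∀ k < n, e k < x → e k ∈ s) → C n ⊆ ⋃ y ∈ s, (g y).1 := by
    intro n s hs k hk
    simp only [hC, mem_iUnion, Finset.mem_range] at hk ⊢
    obtain ⟨i, hi, hk⟩ := hk
    simp only [hB'] at hk
    split_ifs at hk with h
    · exact ⟨e i, hs i hi h, hk⟩
    · exact absurd hk (Set.notMem_empty _)
  have hAsub : ∀ n (s : Finset ι), (∀ k < n, e k < x → e k ∈ s) →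
      (⋃ k ∈ Finset.range n, A' k) ⊆ ⋃ y ∈ s, (g y).2 := by
    intro n s hs k hk
    simp only [mem_iUnion, Finset.mem_range] at hk ⊢
    obtain ⟨i, hi, hk⟩ := hk
    simp only [hA'] at hk
    split_ifs at hk with h
    · exact ⟨e i, hs i hi h, hk⟩
    · exact absurd hk (Set.notMem_empty _)
  -- type 1 sets
  have hX1 : ∀ y, y < x → ∀ n, ((g y).2 \ C n).Infinite := by
    intro y hy n
    set s : Finset ι := insert y (((Finset.range n).image e).filter (· < x)) with hs
    have hs1 : ∀ w ∈ s, w < x := by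
      intro w hw
      rw [hs, Finset.mem_insert, Finset.mem_filter] at hw
      rcases hw with rfl | hw
      · exact hy
      · exact hw.2
    obtain ⟨z, hz, hmax, hfin⟩ := key s hs1 ⟨y, Finset.mem_insert_self _ _⟩
    have hyz : y ≤ z := hmax y (Finset.mem_insert_self _ _)
    have h1 : ((g y).2 \ (g z).1).Infinite := by
      rcases lt_or_eq_of_le hyz with h | h
      · exact (hg z (hs1 z hz)).2.2.1 y h
      · rw [← h]
        have h5 := (hg y hy).2.2.2
        rw [sdiff_eq_left.2 h5.2.1]
        exact h5.1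
    refine diff_inf h1 (hfin.subset ?_)
    refine sdiff_subset_sdiff_left (hCsub n s ?_)
    intro k hk hkx
    rw [hs, Finset.mem_insert, Finset.mem_filter]
    exact Or.inr ⟨Finset.mem_image.2 ⟨k, Finset.mem_range.2 hk, rfl⟩, hkx⟩
  have hX2 : ∀ m n, ((⋃ k ∈ Finset.range m, A' k)ᶜ \ C n).Infinite := by
    intro m n
    set s : Finset ι := (((Finset.range (max m n)).image e).filter (· < x)) with hs
    have hs1 : ∀ w ∈ s, w < x := by
      intro w hw
      rw [hs, Finset.mem_filter] at hw
      exact hw.2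
    have hs2 : ∀ k < max m n, e k < x → e k ∈ s := by
      intro k hk hkx
      rw [hs, Finset.mem_filter]
      exact ⟨Finset.mem_image.2 ⟨k, Finset.mem_range.2 hk, rfl⟩, hkx⟩
    have hsA := hAsub m s (fun k hk => hs2 k (lt_of_lt_of_le hk (le_max_left _ _)))
    have hsC := hCsub n s (fun k hk => hs2 k (lt_of_lt_of_le hk (le_max_right _ _)))
    by_cases hne : s.Nonempty
    · obtain ⟨z, hz, hmax, hfin⟩ := key s hs1 hne
      have h7 := (hg z (hs1 z hz)).2.2.2.2.2.2 s
      have h8 : (((⋃ k ∈ Finset.range m, A' k)ᶜ) \ (g z).1).Infinite := by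
        refine h7.mono ?_
        intro k hk
        simp only [mem_compl_iff, mem_union, mem_iUnion, not_or, not_exists] at hk
        refine ⟨?_, hk.1.1⟩
        intro hk2
        have hk3 := hsA hk2
        simp only [mem_iUnion] at hk3
        obtain ⟨y, hy, hky⟩ := hk3
        rcases lt_or_eq_of_le (hmax y hy) with h | h
        · exact hk.2 y hy h hky
        · exact hk.1.2 (h ▸ hky)
      exact diff_inf h8 (hfin.subset (sdiff_subset_sdiff_left hsC))
    · rw [Finset.not_nonempty_iff_eq_empty] at hne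
      rw [hne] at hsA hsC
      simp only [Finset.notMem_empty, iUnion_of_empty, iUnion_empty, subset_empty_iff] at hsA hsC
      rw [hsA, hsC]
      simpa using Set.infinite_univ
  -- the family of sets to be preserved
  set X : ℕ ⊕ ℕ → Set ℕ := Sum.elim
    (fun n => if e n < x then (g (e n)).2 else (⋃ k ∈ Finset.range n, A' k)ᶜ)
    (fun n => (⋃ k ∈ Finset.range n, A' k)ᶜ) with hX
  have hXinf : ∀ j n, (X j \ C n).Infinite := by
    rintro (j | j) n
    · simp only [hX, Sum.elim_inl]
      split_ifs with h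
      · exact hX1 _ h n
      · exact hX2 _ _
    · exact hX2 _ _
  set F' : ℕ → Finset ℕ := if (∀ m n, m ≠ n → Disjoint (Fs x m) (Fs x n)) then Fs x
    else (fun n => {n}) with hF'
  have hF'd : ∀ m n, m ≠ n → Disjoint (F' m) (F' n) := by
    intro m n hmn
    rw [hF']
    split_ifs with h
    · exact h m n hmn
    · simpa using hmn
  obtain ⟨B, hB1, ⟨M, hM, hMB⟩, hB3⟩ := absorb C hCmono
    (fun n => X (Equiv.natSumNatEquivNat.symm n)) (fun j n => hXinf _ n) F' hF'd
  have hB3' : ∀ j, (X j \ B).Infinite := by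
    intro j
    have := hB3 (Equiv.natSumNatEquivNat j)
    rwa [Equiv.symm_apply_apply] at this
  obtain ⟨A, hA1, hA2, hA3, hA4⟩ := newSet B A' (by
    intro n
    have := hB3' (Sum.inr n)
    simp only [hX, Sum.elim_inr] at this
    refine this.mono ?_
    rintro k ⟨h1, h2⟩ (h3 | h3)
    · exact h2 h3
    · exact h1 h3)
  refine ⟨(B, A), ?_, ?_, ?_, hA1, hA2, ?_, ?_⟩
  · intro y hy
    obtain ⟨k, rfl⟩ := hex y hy.le
    refine (hB1 (k + 1)).subset (sdiff_subset_sdiff_left ?_)
    intro i hi
    simp only [hC, mem_iUnion, Finset.mem_range]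
    refine ⟨k, Nat.lt_succ_self k, ?_⟩
    simp only [hB', if_pos hy]
    exact hi
  · intro hdis
    have : F' = Fs x := by rw [hF', if_pos hdis]
    exact ⟨M, hM, fun m hm => this ▸ hMB m hm⟩
  · intro y hy
    obtain ⟨k, rfl⟩ := hex y hy.le
    have := hB3' (Sum.inl k)
    simp only [hX, Sum.elim_inl, if_pos hy] at this
    exact this
  · intro y hy
    obtain ⟨k, rfl⟩ := hex y hy.le
    have := hA3 k
    simp only [hA', if_pos hy] at this
    exact this
  · intro s
    choose! k hk using hex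
    have := hA4 ((s.image k).sup id + 1)
    refine this.mono (compl_subset_compl.2 (union_subset_union_right _ ?_))
    intro i hi
    simp only [mem_iUnion, Finset.mem_range] at hi ⊢
    obtain ⟨y, hy, hyx, hi⟩ := hi
    refine ⟨k y, ?_, ?_⟩
    · exact Nat.lt_succ_of_le (Finset.le_sup (f := id) (Finset.mem_image.2 ⟨y, hy, rfl⟩))
    · simp only [hA']
      rw [hk y hyx.le, if_pos hyx]
      exact hi

/-- The case of the continuum hypothesis. -/
lemma ch_case {ι : Type} [LinearOrder ι] [WellFoundedLT ι] [Nonempty ι]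
    (hc : ∀ x : ι, (Iic x).Countable) (hu : ¬ (univ : Set ι).Countable)
    (hbd : ∀ t : ℕ → ι, ∃ z, ∀ n, t n ≤ z)
    (Fs : ι → ℕ → Finset ℕ) (hFs : Function.Surjective Fs) :
    ∃ F : Filter ℕ, IsFree F ∧ ¬ IsPoor F ∧ ¬ IsConglomerated F := by
  classical
  obtain ⟨f, hf⟩ := wf_rec (fun x g p => Rel Fs x g p) (fun x g hg => step hc Fs x g hg)
  have hmono : ∀ x y, x ≤ y → ((f x).1 \ (f y).1).Finite := by
    intro x y hxy
    rcases lt_or_eq_of_le hxy with h | h
    · exact (hf y).1 x h
    · rw [h]; simp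
  have hAB : ∀ x y, ((f x).2 \ (f y).1).Infinite := by
    intro x y
    rcases lt_or_ge x y with h | h
    · exact (hf y).2.2.1 x h
    · refine diff_inf (B := (f x).1) ?_ (hmono y x h)
      rw [sdiff_eq_left.2 (hf x).2.2.2.2.1]
      exact (hf x).2.2.2.1
  have hAA : ∀ x y, x < y → ((f x).2 ∩ (f y).2).Finite := by
    intro x y h
    rw [inter_comm]
    exact (hf y).2.2.2.2.2.1 x h
  have hco : ∀ x, ((f x).1ᶜ).Infinite := by
    intro x
    have := (hf x).2.2.2.2.2.2 ∅
    refine this.mono ?_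
    intro k hk
    simp only [Finset.notMem_empty, iUnion_of_empty, iUnion_empty, union_empty, mem_compl_iff,
      mem_union, not_or] at hk
    exact hk.1
  have hfin_union : ∀ (S T : Set ℕ) (x y : ι), (S \ (f x).1).Finite → (T \ (f y).1).Finite →
      ((S ∪ T) \ (f (max x y)).1).Finite := by
    intro S T x y hS hT
    have h1 := hmono x (max x y) (le_max_left _ _)
    have h2 := hmono y (max x y) (le_max_right _ _)
    refine ((hS.union hT).union (h1.union h2)).subset ?_
    rintro k ⟨hk | hk, hk2⟩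
    · by_cases h3 : k ∈ (f x).1
      · exact Or.inr (Or.inl ⟨h3, hk2⟩)
      · exact Or.inl (Or.inl ⟨hk, h3⟩)
    · by_cases h3 : k ∈ (f y).1
      · exact Or.inr (Or.inr ⟨h3, hk2⟩)
      · exact Or.inl (Or.inr ⟨hk, h3⟩)
  let F : Filter ℕ :=
    { sets := {S | ∃ x, (Sᶜ \ (f x).1).Finite}
      univ_sets := ⟨Classical.arbitrary ι, by simp⟩
      sets_of_superset := by
        rintro S T ⟨x, hx⟩ hST
        exact ⟨x, hx.subset (sdiff_subset_sdiff_left (compl_subset_compl.2 hST))⟩
      inter_sets := by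
        rintro S T ⟨x, hx⟩ ⟨y, hy⟩
        refine ⟨max x y, ?_⟩
        rw [compl_inter]
        exact hfin_union _ _ _ _ hx hy }
  have hF : ∀ S : Set ℕ, S ∈ F ↔ ∃ x, (Sᶜ \ (f x).1).Finite := fun S => Iff.rfl
  have hideal : ∀ S : Set ℕ, S ∈ ideal F ↔ ∃ x, (S \ (f x).1).Finite := by
    intro S
    rw [ideal, mem_ofPred_eq, hF, compl_compl]
  refine ⟨F, ⟨⟨?_⟩, ?_⟩, ?_, ?_⟩
  · intro h
    have h0 : (∅ : Set ℕ) ∈ F := by rw [h]; exact Filter.mem_bot
    obtain ⟨x, hx⟩ := (hF ∅).1 h0
    rw [compl_empty, ← compl_eq_univ_sdiff] at hx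
    exact hco x hx
  · intro S hS
    rw [Filter.mem_cofinite] at hS
    exact (hF S).2 ⟨Classical.arbitrary ι, hS.subset sdiff_subset⟩
  · intro hpoor
    have hinj : Function.Injective (fun x => (f x).2) := by
      have aux : ∀ x y, x < y → (f x).2 ≠ (f y).2 := by
        intro x y h he
        have h1 := hAA x y h
        rw [he, inter_self] at h1
        exact (hf y).2.2.2.1 h1
      intro x y hxy
      rcases lt_trichotomy x y with h | h | h
      · exact absurd hxy (aux x y h)
      · exact h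
      · exact absurd hxy.symm (aux y x h)
    have hcount := hpoor (range (fun x => (f x).2)) (by
      rintro _ ⟨x, rfl⟩
      rw [grill, mem_ofPred_eq, hideal]
      rintro ⟨y, hy⟩
      exact hAB x y hy) (by
      rintro _ ⟨x, rfl⟩ _ ⟨y, rfl⟩ hne
      rw [hideal]
      refine ⟨x, Set.Finite.subset ?_ sdiff_subset⟩
      rcases lt_trichotomy x y with h | h | h
      · exact hAA x y h
      · exact absurd (by rw [h]) hne
      · rw [inter_comm]; exact hAA y x h)
    apply hu
    have h3 : ((fun x => (f x).2) '' univ).Countable := by rw [image_univ]; exact hcount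
    exact (countable_of_injective_of_countable_image hinj.injOn h3)
  · rintro ⟨D, hD1, hD2, hD3⟩
    have hx : ∀ n, ∃ x, (D n \ (f x).1).Finite := fun n => (hideal _).1 (hD2 n)
    choose t ht using hx
    obtain ⟨z, hz⟩ := hbd t
    have hDz : ∀ n, (D n \ (f z).1).Finite := by
      intro n
      refine ((ht n).union (hmono (t n) z (hz n))).subset ?_
      rintro k ⟨hk1, hk2⟩
      by_cases h : k ∈ (f (t n)).1
      · exact Or.inr ⟨h, hk2⟩
      · exact Or.inl ⟨hk1, h⟩
    obtain ⟨w, hw⟩ := hFs (fun n => (hDz n).toFinset)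
    have hdis : ∀ m n, m ≠ n → Disjoint (Fs w m) (Fs w n) := by
      intro m n hmn
      rw [hw, Finset.disjoint_left]
      intro a ha hb
      rw [Set.Finite.mem_toFinset] at ha hb
      exact (Set.disjoint_left.1 (hD1 m n hmn)) ha.1 hb.1
    obtain ⟨M, hM, hMw⟩ := (hf w).2.1 hdis
    have h5 := hD3 M hM
    rw [grill, mem_ofPred_eq, hideal] at h5
    apply h5
    refine ⟨max z w, ?_⟩
    have h6 := hfin_union (f z).1 (f w).1 z w (by simp) (by simp)
    refine h6.subset (sdiff_subset_sdiff_left ?_)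
    intro k hk
    simp only [mem_iUnion] at hk
    obtain ⟨n, hn, hk⟩ := hk
    by_cases hkz : k ∈ (f z).1
    · exact Or.inl hkz
    · right
      apply hMw n hn
      rw [hw]
      simpa using ⟨hk, hkz⟩

/-- An almost disjoint family indexed by the infinite binary sequences. -/
def branch (x : ℕ → Bool) : Set ℕ :=
  Set.range (fun n : ℕ => Encodable.encode (List.ofFn (fun i : Fin n => x i)))

lemma branch_inj_aux {x : ℕ → Bool} : Function.Injective
    (fun n : ℕ => Encodable.encode (List.ofFn (fun i : Fin n => x i))) := by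
  intro m n h
  have h1 := Encodable.encode_injective h
  have h2 := congrArg List.length h1
  simpa using h2

lemma branch_infinite (x : ℕ → Bool) : (branch x).Infinite :=
  Set.infinite_range_of_injective branch_inj_aux

lemma branch_inter {x y : ℕ → Bool} (h : x ≠ y) : (branch x ∩ branch y).Finite := by
  obtain ⟨i, hi⟩ := Function.ne_iff.1 h
  refine Set.Finite.subset ((Finset.range (i + 1)).finite_toSet.image
    (fun n : ℕ => Encodable.encode (List.ofFn (fun i : Fin n => x i)))) ?_
  rintro _ ⟨⟨m, rfl⟩, ⟨n, hn⟩⟩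
  have h1 := Encodable.encode_injective hn
  have h2 : n = m := by simpa using congrArg List.length h1
  subst h2
  refine ⟨n, ?_, rfl⟩
  by_contra hcon
  have hlt : i < n := by simpa using hcon
  have h3 := List.ofFn_injective h1
  exact hi (congrFun h3 ⟨i, hlt⟩).symm

/-- The case of the negation of the continuum hypothesis. -/
lemma nch_case {ι : Type} (hu : ¬ (univ : Set ι).Countable) (b : ι → ℕ → Bool)
    (hb : Function.Injective b) (hne : ∀ g : (ℕ → Bool) → ι, ¬ Function.Injective g) :
    ∃ F : Filter ℕ, IsFree F ∧ ¬ IsPoor F ∧ ¬ IsConglomerated F := by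
  classical
  have hU : ∀ i : ι, ∃ U : Ultrafilter ℕ, (U : Filter ℕ) ≤ Filter.cofinite ∧ branch (b i) ∈ U := by
    intro i
    have := Set.Infinite.cofinite_inf_principal_neBot (branch_infinite (b i))
    refine ⟨Ultrafilter.of (Filter.cofinite ⊓ Filter.principal (branch (b i))), ?_, ?_⟩
    · exact (Ultrafilter.of_le _).trans inf_le_left
    · have h1 : (Ultrafilter.of (Filter.cofinite ⊓ Filter.principal (branch (b i))) : Filter ℕ) ≤
        Filter.principal (branch (b i)) := (Ultrafilter.of_le _).trans inf_le_right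
      exact h1 (Filter.mem_principal_self _)
  choose U hU1 hU2 using hU
  have hne' : Nonempty ι := by
    by_contra h
    rw [not_nonempty_iff] at h
    exact hu (Set.countable_univ)
  obtain ⟨i0⟩ := hne'
  have hF : ∀ S : Set ℕ, S ∈ (⨆ i, (U i : Filter ℕ)) ↔ ∀ i, S ∈ U i := fun S => by
    simp [Filter.mem_iSup]
  have hideal : ∀ S : Set ℕ, S ∈ ideal (⨆ i, (U i : Filter ℕ)) ↔ ∀ i, S ∉ U i := by
    intro S
    rw [ideal, mem_ofPred_eq, hF]
    refine forall_congr' fun i => ?_
    exact Ultrafilter.compl_mem_iff_notMem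
  have hfinU : ∀ i (S : Set ℕ), S.Finite → S ∉ U i := by
    intro i S hS
    rw [← Ultrafilter.compl_mem_iff_notMem]
    exact hU1 i (by rw [Filter.mem_cofinite, compl_compl]; exact hS)
  refine ⟨⨆ i, (U i : Filter ℕ), ⟨?_, ?_⟩, ?_, ?_⟩
  · exact Filter.NeBot.mono (U i0).neBot (le_iSup (fun i => (U i : Filter ℕ)) i0)
  · exact iSup_le hU1
  · intro hpoor
    have hinj : Function.Injective (fun i => branch (b i)) := by
      intro i j hij
      by_contra hne2
      have h1 := branch_inter (fun h => hne2 (hb h))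
      simp only at hij
      rw [hij, inter_self] at h1
      exact branch_infinite _ h1
    have hcount := hpoor (range (fun i => branch (b i))) (by
      rintro _ ⟨i, rfl⟩
      rw [grill, mem_ofPred_eq, hideal]
      intro h
      exact h i (hU2 i)) (by
      rintro _ ⟨i, rfl⟩ _ ⟨j, rfl⟩ hne2
      rw [hideal]
      intro k
      refine hfinU k _ (branch_inter ?_)
      intro h
      exact hne2 (by simp only [h]))
    apply hu
    have h3 : ((fun i => branch (b i)) '' univ).Countable := by rw [image_univ]; exact hcount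
    exact (countable_of_injective_of_countable_image hinj.injOn h3)
  · rintro ⟨D, hD1, hD2, hD3⟩
    have hD2' : ∀ n i, D n ∉ U i := fun n => (hideal _).1 (hD2 n)
    have h1 : ∀ x : ℕ → Bool, ∃ i, (⋃ n ∈ branch x, D n) ∈ U i := by
      intro x
      have := hD3 (branch x) (branch_infinite x)
      rw [grill, mem_ofPred_eq, hideal] at this
      push Not at this
      exact this
    choose g hg using h1
    apply hne g
    intro x y hxy
    by_contra hne2
    have h2 := hg x
    have h3 := hg y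
    rw [← hxy] at h3
    have h4 : (⋃ n ∈ branch x, D n) ∩ (⋃ n ∈ branch y, D n) ∈ U (g x) :=
      (U (g x)).inter_sets h2 h3
    have h5 : (⋃ n ∈ branch x, D n) ∩ (⋃ n ∈ branch y, D n) ⊆ ⋃ n ∈ branch x ∩ branch y, D n := by
      rintro k ⟨hk1, hk2⟩
      simp only [mem_iUnion] at hk1 hk2 ⊢
      obtain ⟨m, hm, hkm⟩ := hk1
      obtain ⟨n, hn, hkn⟩ := hk2
      by_cases h : m = n
      · subst h
        exact ⟨m, ⟨hm, hn⟩, hkm⟩
      · exact absurd hkn (Set.disjoint_left.1 (hD1 m n h) hkm)
    have h6 : (⋃ n ∈ branch x ∩ branch y, D n) ∈ U (g x) := (U (g x)).sets_of_superset h4 h5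
    rw [Ultrafilter.finite_biUnion_mem_iff (branch_inter hne2)] at h6
    obtain ⟨n, _, hn⟩ := h6
    exact hD2' n _ hn

/-- In ZFC there is a free filter on `ℕ` which is neither poor nor conglomerated. -/
theorem exists_nonpoor_nonconglomerated :
    ∃ F : Filter ℕ, IsFree F ∧ ¬ IsPoor F ∧ ¬ IsConglomerated F := by
  classical
  let ι : Type := (ℵ₁ : Cardinal.{0}).ord.ToType
  have hcard : #ι = ℵ₁ := by simp [ι]
  have hne : Nonempty ι := by
    rw [← Cardinal.mk_ne_zero_iff, hcard]
    exact (Cardinal.aleph_pos 1).ne'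
  have hu : ¬ (univ : Set ι).Countable := by
    rw [← Cardinal.le_aleph0_iff_set_countable, Cardinal.mk_univ, hcard, not_le]
    exact Cardinal.aleph0_lt_aleph_one
  by_cases hCH : ℵ₁ = 𝔠
  · have hIio : ∀ x : ι, (Iio x).Countable := by
      intro x
      rw [← Cardinal.le_aleph0_iff_set_countable, ← Cardinal.lt_aleph_one_iff]
      have := Cardinal.mk_Iio_lt x (by simp [ι])
      rwa [hcard] at this
    have hIic : ∀ x : ι, (Iic x).Countable := by
      intro x
      rw [← Iio_insert]
      exact (hIio x).insert x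
    have hbd : ∀ t : ℕ → ι, ∃ z, ∀ n, t n ≤ z := by
      intro t
      by_contra hcon
      push Not at hcon
      apply hu
      have : (univ : Set ι) ⊆ ⋃ n, Iio (t n) := by
        intro z _
        obtain ⟨n, hn⟩ := hcon z
        exact mem_iUnion.2 ⟨n, hn⟩
      exact (countable_iUnion (fun n => hIio (t n))).mono this
    have hcard2 : #(ℕ → Finset ℕ) ≤ #ι := by
      rw [hcard, hCH]
      simp
    obtain ⟨e⟩ := Cardinal.le_def _ _ |>.1 hcard2
    have : Nonempty (ℕ → Finset ℕ) := ⟨fun _ => ∅⟩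
    exact ch_case hIic hu hbd (Function.invFun e) (Function.invFun_surjective e.injective)
  · have hlt : ℵ₁ < 𝔠 := lt_of_le_of_ne Cardinal.aleph_one_le_continuum hCH
    have h2 : #(ℕ → Bool) = 𝔠 := by simp
    have h3 : #ι ≤ #(ℕ → Bool) := by rw [hcard, h2]; exact hlt.le
    obtain ⟨b⟩ := Cardinal.le_def _ _ |>.1 h3
    refine nch_case hu b b.injective ?_
    intro g hg
    have := Cardinal.mk_le_of_injective hg
    rw [hcard, h2] at this
    exact absurd hlt (not_lt.2 this)

end Pool.Agent.Q181.FL
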